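import Mathlib

set_option autoImplicit false

namespace Pool.Agent.H857Z.Br

open Classical

/-- A degree function and a family of subspaces `M r` on a `k`-algebra `R`. -/
structure Data (k R : Type*) [Field k] [Ring R] [Algebra k R] where
  deg : R → ℕ
  M : R → Submodule k R
  one_ne : (1 : R) ≠ 0
  mul_ne : ∀ {r s : R}, r ≠ 0 → s ≠ 0 → r * s ≠ 0
  deg_mul : ∀ {r s : R}, r ≠ 0 → s ≠ 0 → deg (r * s) = deg r + deg s
  deg_add : ∀ (r s : R) (n : ℕ), deg r ≤ n → deg s ≤ n → deg (r + s) ≤ n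
  deg_smul : ∀ (c : k) (r : R), deg (c • r) ≤ deg r
  deg_zero : deg 0 = 0
  const : ∀ {r : R}, deg r = 0 → ∃ c : k, r = c • 1
  one_mem : ∀ {r : R}, r ≠ 0 → 1 ∈ M r
  self_mem : ∀ r : R, r ∈ M r
  top : ∀ {r v : R}, v ∈ M r → ∃ c : k, v - c • r = 0 ∨ deg (v - c • r) < deg r
  trans : ∀ {r v : R}, v ∈ M r → M v ≤ M r
  rigid : ∀ {r v y : R}, v ∈ M r → y ∈ M r → y ≠ 0 → deg v ≤ deg y → v ∈ M y
  mul_mem : ∀ (s : R) {t h : R}, h ∈ M t → s * h ∈ M (s * t)
  split : ∀ {s t v : R}, s ≠ 0 → t ≠ 0 → v ∈ M (s * t) → ∃ h ∈ M t, ∃ u ∈ M s, v = s * h + u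
  link : ∀ {u w w₁ c c' h h' : R}, u ≠ 0 → w ∈ M u → w₁ ∈ M u → u * c' = w * c + w₁ → c ≠ 0 →
     h' ≠ 0 → h ∈ M h' → deg h < deg h' → h' ∈ M (h' * c + h * c')

namespace Data

variable {k R : Type*} [Field k] [Ring R] [Algebra k R] (D : Data k R)

lemma deg_one : D.deg 1 = 0 := by
  have := D.deg_mul D.one_ne D.one_ne
  rw [mul_one] at this
  omega

lemma deg_neg (r : R) : D.deg (-r) = D.deg r := by
  apply le_antisymm
  · simpa using D.deg_smul (-1) r
  · simpa using D.deg_smul (-1) (-r)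

lemma deg_sub (r s : R) (n : ℕ) (hr : D.deg r ≤ n) (hs : D.deg s ≤ n) : D.deg (r - s) ≤ n := by
  rw [sub_eq_add_neg]
  exact D.deg_add _ _ _ hr (by rwa [D.deg_neg])

lemma ne_of_deg {r : R} (h : 1 ≤ D.deg r) : r ≠ 0 := by
  rintro rfl
  rw [D.deg_zero] at h
  omega

lemma deg_le_of_mem {r v : R} (h : v ∈ D.M r) : D.deg v ≤ D.deg r := by
  obtain ⟨c, hc⟩ := D.top h
  have h1 : v = (v - c • r) + c • r := by abel
  rw [h1]
  apply D.deg_add _ _ _ _ (D.deg_smul c r)
  rcases hc with hc | hc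
  · rw [hc, D.deg_zero]; omega
  · omega

lemma eq_zero_of_mem_zero {v : R} (h : v ∈ D.M 0) : v = 0 := by
  obtain ⟨c, hc⟩ := D.top h
  rcases hc with hc | hc
  · simpa using hc
  · rw [D.deg_zero] at hc; omega

lemma deg_mul_le (r s : R) : D.deg (r * s) ≤ D.deg r + D.deg s := by
  by_cases hr : r = 0
  · subst hr; simp [D.deg_zero]
  by_cases hs : s = 0
  · subst hs; simp [D.deg_zero]
  exact (D.deg_mul hr hs).le

lemma deg_add_eq {r s : R} (h : D.deg s < D.deg r) : D.deg (r + s) = D.deg r := by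
  apply le_antisymm (D.deg_add _ _ _ le_rfl h.le)
  by_contra hc
  push Not at hc
  have h1 : r = (r + s) - s := by abel
  have h2 : D.deg ((r + s) - s) ≤ D.deg r - 1 := D.deg_sub _ _ _ (by omega) (by omega)
  rw [← h1] at h2
  omega

lemma deg_smul_eq {c : k} (hc : c ≠ 0) (r : R) : D.deg (c • r) = D.deg r := by
  apply le_antisymm (D.deg_smul c r)
  have := D.deg_smul c⁻¹ (c • r)
  rwa [smul_smul, inv_mul_cancel₀ hc, one_smul] at this

lemma left_mem (s : R) {t : R} (ht : t ≠ 0) : s ∈ D.M (s * t) := by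
  simpa using D.mul_mem s (D.one_mem ht)

lemma split' {s t v : R} (hs : s ≠ 0) (ht : t ≠ 0) (hv : v ∈ D.M (s * t)) :
    ∃ h ∈ D.M t, ∃ u ∈ D.M s, (u = 0 ∨ D.deg u < D.deg s) ∧ v = s * h + u := by
  obtain ⟨h, hh, u, hu, e⟩ := D.split hs ht hv
  obtain ⟨c, hc⟩ := D.top hu
  refine ⟨h + c • 1, (D.M t).add_mem hh ((D.M t).smul_mem c (D.one_mem ht)), u - c • s,
    (D.M s).sub_mem hu ((D.M s).smul_mem c (D.self_mem s)), hc, ?_⟩
  rw [e, mul_add, mul_smul_comm, mul_one]
  abel

/-- `f` is linear on each `M r` and multiplicative, up to degree `n`. -/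
structure Good (P : R → Prop) (val : R → k) (n : ℕ) (f : R → k) : Prop where
  add : ∀ r, D.deg r ≤ n → ∀ a ∈ D.M r, ∀ b ∈ D.M r, f (a + b) = f a + f b
  smul : ∀ (c : k) a, D.deg a ≤ n → f (c • a) = c * f a
  mul : ∀ s t, D.deg s + D.deg t ≤ n → f (s * t) = f s * f t
  one : f 1 = 1
  spec : ∀ w, P w → D.deg w ≤ n → f w = val w

variable {D} {P : R → Prop} {val : R → k} {n : ℕ} {f : R → k}

lemma Good.zero (hf : D.Good P val n f) : f 0 = 0 := by
  have := hf.smul 0 0 (by rw [D.deg_zero]; omega)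
  simpa using this

lemma Good.neg (hf : D.Good P val n f) (a : R) (ha : D.deg a ≤ n) : f (-a) = - f a := by
  have := hf.smul (-1) a ha
  simpa using this

lemma Good.low (hf : D.Good P val n f) {r a b : R} (ha : a ∈ D.M r) (hb : b ∈ D.M r)
    (hda : D.deg a ≤ n) (hdb : D.deg b ≤ n) : f (a + b) = f a + f b := by
  by_cases ha0 : a = 0
  · subst ha0; simp [hf.zero]
  by_cases hb0 : b = 0
  · subst hb0; simp [hf.zero]
  rcases le_total (D.deg a) (D.deg b) with h | h
  · exact hf.add b hdb a (D.rigid ha hb hb0 h) b (D.self_mem b)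
  · exact hf.add a hda a (D.self_mem a) b (D.rigid hb ha ha0 h)

lemma Good.mirror (hf : D.Good P val n f) : ∀ (m : ℕ) (t c s u v h h₂ : R), D.deg t ≤ m →
    t ≠ 0 → s ≠ 0 → u ∈ D.M s → v ∈ D.M s → (u = 0 ∨ D.deg u < D.deg s) → s * c = u * t + v →
    h ≠ 0 → h₂ ∈ D.M h → D.deg h + D.deg t ≤ n →
    f (h * t + h₂ * c) = f h * f t + f h₂ * f c := by
  intro m
  induction m using Nat.strong_induction_on with
  | _ m ih =>
  intro t c s u v h h₂ htm ht hs hu hv hus e hh hh₂ hn
  have hdh₂ := D.deg_le_of_mem hh₂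
  by_cases hc : D.deg c = 0
  · obtain ⟨l, rfl⟩ := D.const hc
    have h1 : h₂ * l • (1 : R) ∈ D.M (h * t) := by
      rw [mul_smul_comm, mul_one]
      exact D.trans (D.left_mem h ht) ((D.M h).smul_mem l hh₂)
    rw [hf.add (h * t) ((D.deg_mul_le h t).trans hn) _ (D.self_mem _) _ h1, hf.mul h t hn,
      hf.mul h₂ _ (by omega)]
  have hc1 : 1 ≤ D.deg c := by omega
  have hc0 : c ≠ 0 := D.ne_of_deg hc1
  have hdv := D.deg_le_of_mem hv
  have hsc : D.deg (s * c) = D.deg s + D.deg c := D.deg_mul hs hc0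
  have e1 : u * t = s * c + (-v) := by rw [e]; abel
  have hut : D.deg (u * t) = D.deg s + D.deg c := by
    rw [e1, D.deg_add_eq (by rw [D.deg_neg]; omega), hsc]
  have hu0 : u ≠ 0 := by
    rintro rfl
    rw [zero_mul, D.deg_zero] at hut
    omega
  have hus' : D.deg u < D.deg s := hus.resolve_left hu0
  have hut' := D.deg_mul hu0 ht
  have hut0 : u * t ≠ 0 := D.mul_ne hu0 ht
  have hvsc : v ∈ D.M (s * c) := D.trans (D.left_mem s hc0) hv
  have hutsc : u * t ∈ D.M (s * c) := by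
    rw [e1]; exact (D.M _).add_mem (D.self_mem _) ((D.M _).neg_mem hvsc)
  have hscut : s * c ∈ D.M (u * t) := D.rigid (D.self_mem _) hutsc hut0 (by omega)
  obtain ⟨g, hg, w, hw, hwu, es⟩ := D.split' hu0 ht (D.trans hscut (D.left_mem s hc0))
  obtain ⟨g₁, hg₁, w₁, hw₁, ev⟩ := D.split hu0 ht (D.trans hscut hvsc)
  have hdw := D.deg_le_of_mem hw
  have hdw₁ := D.deg_le_of_mem hw₁
  have hug : D.deg (u * g) = D.deg s := by
    have : u * g = s + (-w) := by rw [es]; abel
    rw [this, D.deg_add_eq (by rw [D.deg_neg]; omega)]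
  have hg0 : g ≠ 0 := by
    rintro rfl
    rw [mul_zero, D.deg_zero] at hug
    omega
  have hug' := D.deg_mul hu0 hg0
  have hg₁g : D.deg g₁ ≤ D.deg g := by
    by_cases h0 : g₁ = 0
    · rw [h0, D.deg_zero]; omega
    have h1 := D.deg_mul hu0 h0
    have h2 : u * g₁ = v - w₁ := by rw [ev]; abel
    have h3 : D.deg (v - w₁) ≤ D.deg s := D.deg_sub _ _ _ hdv (by omega)
    rw [← h2] at h3
    omega
  have hg₁M : g₁ ∈ D.M g := D.rigid hg₁ hg hg0 hg₁g
  set c' := t + g₁ - g * c with hc'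
  have e2 : u * c' = w * c + (-w₁) := by
    have a1 : u * t = s * c - v := by rw [e]; abel
    have a2 : u * g₁ = v - w₁ := by rw [ev]; abel
    have a3 : u * g = s - w := by rw [es]; abel
    rw [hc', mul_sub, mul_add, ← mul_assoc, a1, a2, a3, sub_mul]
    abel
  have IH := fun h h₂ => ih (D.deg c) (by omega) c c' u w (-w₁) h h₂ le_rfl hc0 hu0 hw
    ((D.M u).neg_mem hw₁) hwu e2
  have A1 := IH g 1 hg0 (D.one_mem hg0) (by omega)
  have A1' : g * c + 1 * c' = t + g₁ := by rw [hc', one_mul]; abel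
  rw [A1', hf.one, one_mul, hf.add t (by omega) _ (D.self_mem _) _ hg₁] at A1
  set h' := h * g + h₂ with hh'
  have hhg := D.deg_mul hh hg0
  have hdh' : D.deg h' = D.deg h + D.deg g := by
    rw [hh', D.deg_add_eq (by omega), hhg]
  have hh'0 : h' ≠ 0 := D.ne_of_deg (by omega)
  have hh₂M : h₂ ∈ D.M (h * g) := D.trans (D.left_mem h hg0) hh₂
  have hh'M : h' ∈ D.M (h * g) := (D.M _).add_mem (D.self_mem _) hh₂M
  have hhgM : h * g ∈ D.M h' := D.rigid (D.self_mem _) hh'M hh'0 (by omega)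
  have hhM : h ∈ D.M h' := D.trans hhgM (D.left_mem h hg0)
  have fh' : f h' = f h * f g + f h₂ := by
    rw [hh', hf.add (h * g) (by omega) _ (D.self_mem _) _ hh₂M, hf.mul h g (by omega)]
  have A2 := IH h' h hh'0 hhM (by omega)
  have hX : h' ∈ D.M (h' * c + h * c') :=
    D.link hu0 hw ((D.M u).neg_mem hw₁) e2 hc0 hh'0 hhM (by omega)
  have eX : h' * c + h * c' = (h * t + h₂ * c) + h * g₁ := by
    rw [hh', hc', add_mul, mul_sub, mul_add, mul_assoc]
    abel
  have hhg₁ : h * g₁ ∈ D.M (h' * c + h * c') :=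
    D.trans hX (D.trans hhgM (D.mul_mem h hg₁M))
  have hdX : D.deg (h' * c + h * c') ≤ n := by
    rw [eX]
    apply D.deg_add
    · apply D.deg_add
      · exact (D.deg_mul_le _ _).trans hn
      · exact (D.deg_mul_le _ _).trans (by omega)
    · exact (D.deg_mul_le _ _).trans (by omega)
  have A3 : f (h' * c + h * c') = f (h * t + h₂ * c) + f (h * g₁) := by
    have hm : h * t + h₂ * c ∈ D.M (h' * c + h * c') := by
      have : h * t + h₂ * c = (h' * c + h * c') - h * g₁ := by rw [eX]; abel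
      rw [this]
      exact (D.M _).sub_mem (D.self_mem _) hhg₁
    have := hf.add _ hdX _ hm _ hhg₁
    rw [← eX] at this
    exact this
  rw [hf.mul h g₁ (by omega), A2, fh'] at A3
  linear_combination (-1 : k) * A3 + (- f h) * A1

lemma Good.cons_aux (hf : D.Good P val n f) {s t s' t' v : R} (hs : 1 ≤ D.deg s)
    (ht : 1 ≤ D.deg t) (hs' : 1 ≤ D.deg s') (ht' : 1 ≤ D.deg t')
    (hN : D.deg s + D.deg t = n + 1) (hN' : D.deg s' + D.deg t' = n + 1)
    (hv : v ∈ D.M (s * t)) (hdv : D.deg v ≤ n) (e : s * t = s' * t' + v)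
    (hle : D.deg s ≤ D.deg s') : f s * f t = f s' * f t' + f v := by
  have hs0 := D.ne_of_deg hs
  have ht0 := D.ne_of_deg ht
  have hs0' := D.ne_of_deg hs'
  have ht0' := D.ne_of_deg ht'
  have hM : s' * t' ∈ D.M (s * t) := by
    have : s' * t' = s * t - v := by rw [e]; abel
    rw [this]; exact (D.M _).sub_mem (D.self_mem _) hv
  obtain ⟨h, hh, u, hu, hus, es⟩ := D.split' hs0 ht0 (D.trans hM (D.left_mem s' ht0'))
  obtain ⟨hv', hhv', uv, huv, ev⟩ := D.split hs0 ht0 hv
  have hdu := D.deg_le_of_mem hu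
  have hduv := D.deg_le_of_mem huv
  have hus' : D.deg u < D.deg s := by
    rcases hus with h0 | h0
    · rw [h0, D.deg_zero]; omega
    · exact h0
  have hsh : D.deg (s * h) = D.deg s' := by
    have : s * h = s' + (-u) := by rw [es]; abel
    rw [this, D.deg_add_eq (by rw [D.deg_neg]; omega)]
  have hh0 : h ≠ 0 := by
    rintro rfl
    rw [mul_zero, D.deg_zero] at hsh
    omega
  have hsh' := D.deg_mul hs0 hh0
  have hMs : D.M s ≤ D.M (s * t) := D.trans (D.left_mem s ht0)
  have f1 : f s' = f s * f h + f u := by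
    rw [es, hf.low (D.mul_mem s hh) (hMs hu) (by omega) (by omega), hf.mul s h (by omega)]
  have hshv : D.deg (s * hv') ≤ n := by
    have : s * hv' = v - uv := by rw [ev]; abel
    rw [this]; exact D.deg_sub _ _ _ hdv (by omega)
  have f2 : f v = f s * f hv' + f uv := by
    rw [ev, hf.low (D.mul_mem s hhv') (hMs huv) hshv (by omega)]
    by_cases h0 : hv' = 0
    · rw [h0]; simp [hf.zero]
    · rw [hf.mul s hv' (by rw [← D.deg_mul hs0 h0]; exact hshv)]
  set c := t - h * t' - hv' with hc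
  have e2 : s * c = u * t' + uv := by
    have a1 : s * h = s' - u := by rw [es]; abel
    have a2 : s * hv' = v - uv := by rw [ev]; abel
    rw [hc, mul_sub, mul_sub, ← mul_assoc, a1, a2, e, sub_mul]
    abel
  have hut' : D.deg (u * t') ≤ n := (D.deg_mul_le _ _).trans (by omega)
  have f3 : f s * f c = f u * f t' + f uv := by
    by_cases h0 : c = 0
    · rw [h0, mul_zero] at e2
      have : uv = -(u * t') := by rw [eq_neg_iff_add_eq_zero, add_comm]; exact e2.symm
      rw [h0, hf.zero, this, hf.neg _ hut', hf.mul u t' (by omega)]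
      ring
    · have hsc : D.deg (s * c) ≤ n := by
        rw [e2]; exact D.deg_add _ _ _ hut' (by omega)
      have m1 : uv ∈ D.M (s * c) := D.trans (D.left_mem s h0) huv
      have m2 : u * t' ∈ D.M (s * c) := by
        have : u * t' = s * c - uv := by rw [e2]; abel
        rw [this]; exact (D.M _).sub_mem (D.self_mem _) m1
      rw [← hf.mul s c (by rw [← D.deg_mul hs0 h0]; exact hsc), e2,
        hf.add _ hsc _ m2 _ m1, hf.mul u t' (by omega)]
  have f4 : f t = f (h * t' + 1 * c) + f hv' := by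
    have a1 : h * t' + 1 * c = t - hv' := by rw [hc, one_mul]; abel
    have := hf.add t (by omega) _ ((D.M t).sub_mem (D.self_mem t) hhv') _ hhv'
    rw [a1, ← this]
    congr 1
    abel
  have f5 := hf.mirror (D.deg t') t' c s u uv h 1 le_rfl ht0' hs0 hu huv hus e2 hh0
    (D.one_mem hh0) (by omega)
  rw [f4, f5, hf.one, f1, f2]
  linear_combination f3

lemma Good.cons (hf : D.Good P val n f) {s t s' t' v : R} {c : k} (hs : 1 ≤ D.deg s)
    (ht : 1 ≤ D.deg t) (hs' : 1 ≤ D.deg s') (ht' : 1 ≤ D.deg t')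
    (hN : D.deg s + D.deg t = n + 1) (hN' : D.deg s' + D.deg t' = n + 1)
    (hv : v ∈ D.M (s * t)) (hdv : D.deg v ≤ n) (e : s * t = c • (s' * t') + v) :
    f s * f t = c * (f s' * f t') + f v := by
  have hs0 := D.ne_of_deg hs
  have ht0 := D.ne_of_deg ht
  have hs0' := D.ne_of_deg hs'
  have hst := D.deg_mul hs0 ht0
  have hc : c ≠ 0 := by
    rintro rfl
    rw [zero_smul, zero_add] at e
    rw [e] at hst
    omega
  have hdt : D.deg (c • t') = D.deg t' := D.deg_smul_eq hc t'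
  have e' : s * t = s' * (c • t') + v := by rw [e, mul_smul_comm]
  have ft : f (c • t') = c * f t' := hf.smul c t' (by omega)
  rcases le_total (D.deg s) (D.deg s') with h | h
  · have := hf.cons_aux hs ht hs' (by omega) hN (by omega) hv hdv e' h
    rw [this, ft]; ring
  · have ht0' : c • t' ≠ 0 := D.ne_of_deg (by omega)
    have hM : s' * (c • t') ∈ D.M (s * t) := by
      have : s' * (c • t') = s * t - v := by rw [e']; abel
      rw [this]; exact (D.M _).sub_mem (D.self_mem _) hv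
    have hM' : s * t ∈ D.M (s' * (c • t')) :=
      D.rigid (D.self_mem _) hM (D.mul_ne hs0' ht0') (by rw [D.deg_mul hs0' ht0']; omega)
    have := hf.cons_aux (s := s') (t := c • t') (s' := s) (t' := t) (v := -v) hs' (by omega) hs ht
      (by omega) hN ((D.M _).neg_mem (D.trans hM' hv)) (by rw [D.deg_neg]; exact hdv)
      (by rw [e']; abel) h
    rw [hf.neg v hdv, ft] at this
    linear_combination (-1 : k) * this

end Data

end Pool.Agent.H857Z.Br
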