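import Mathlib

set_option autoImplicit false

namespace Pool.Agent.H857Z.Br

open Classical

/-- A field with an action of `ℤ` and two compatible families of subfields. -/
structure Setup (k K : Type*) [Field k] [Field K] [Algebra k K] where
  sh : ℤ → K →ₐ[k] K
  sh_zero : ∀ d, sh 0 d = d
  sh_add : ∀ i j d, sh (i + j) d = sh i (sh j d)
  lt : ℤ → IntermediateField k K
  ge : ℤ → IntermediateField k K
  lt_mono : ∀ {i j : ℤ}, i ≤ j → lt i ≤ lt j
  ge_anti : ∀ {i j : ℤ}, i ≤ j → ge j ≤ ge i
  sh_lt : ∀ (i : ℤ) {j : ℤ} {d : K}, d ∈ lt j → sh i d ∈ lt (i + j)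
  sh_ge : ∀ (i : ℤ) {j : ℤ} {d : K}, d ∈ ge j → sh i d ∈ ge (i + j)
  inter : ∀ {d : K}, d ∈ ge 0 → d ∈ lt 0 → ∃ c : k, d = algebraMap k K c
  u : K
  u_ge : u ∈ ge (-1)
  u_lt : u ∈ lt 0
  u_not : ∀ c : k, u ≠ algebraMap k K c

section Concrete

variable (k : Type*) [Field k]

open MvPolynomial

/-- The field of rational functions in variables indexed by the integers. -/
abbrev KK := FractionRing (MvPolynomial ℤ k)

/-- The variables. -/
noncomputable def uu (i : ℤ) : KK k := algebraMap (MvPolynomial ℤ k) (KK k) (X i)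

/-- The shift of variables. -/
noncomputable def shift (i : ℤ) : KK k →ₐ[k] KK k :=
  (IsFractionRing.algEquivOfAlgEquiv (K := KK k) (L := KK k)
    (renameEquiv k (Equiv.addLeft i))).toAlgHom

lemma shift_alg (i : ℤ) (p : MvPolynomial ℤ k) :
    shift k i (algebraMap _ (KK k) p) = algebraMap _ (KK k) (rename (fun j => i + j) p) := by
  exact IsFractionRing.algEquivOfAlgEquiv_algebraMap (K := KK k) (L := KK k)
    (renameEquiv k (Equiv.addLeft i)) p

lemma shift_uu (i j : ℤ) : shift k i (uu k j) = uu k (i + j) := by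
  rw [uu, shift_alg, rename_X]; rfl

lemma shift_ext {f g : KK k →ₐ[k] KK k}
    (h : ∀ p : MvPolynomial ℤ k, f (algebraMap _ _ p) = g (algebraMap _ _ p)) (d : KK k) :
    f d = g d := by
  have := IsFractionRing.ringHom_ext (A := MvPolynomial ℤ k) (f1 := (f : KK k →+* KK k))
    (f2 := (g : KK k →+* KK k)) h
  exact RingHom.congr_fun this d

lemma shift_mem (i : ℤ) (S T : Set ℤ) (h : ∀ j ∈ S, i + j ∈ T) {d : KK k}
    (hd : d ∈ IntermediateField.adjoin k (uu k '' S)) :
    shift k i d ∈ IntermediateField.adjoin k (uu k '' T) := by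
  have h1 : (IntermediateField.adjoin k (uu k '' S)).map (shift k i) ≤
      IntermediateField.adjoin k (uu k '' T) := by
    rw [IntermediateField.adjoin_map]
    apply IntermediateField.adjoin.mono
    rintro _ ⟨_, ⟨j, hj, rfl⟩, rfl⟩
    exact ⟨i + j, h j hj, (shift_uu k i j).symm⟩
  exact h1 ⟨d, hd, rfl⟩

lemma aeval_uu (S : Set ℤ) (p : MvPolynomial S k) :
    aeval (fun j : S => uu k j) p = algebraMap _ (KK k) (rename Subtype.val p) := by
  induction p using MvPolynomial.induction_on with
  | C a =>
    rw [aeval_C, rename_C, IsScalarTower.algebraMap_apply k (MvPolynomial ℤ k) (KK k)]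
    rfl
  | add p q hp hq => simp [hp, hq]
  | mul_X p j hp => simp only [map_mul, hp, aeval_X, rename_X]; rfl

lemma inter_const {d : KK k} (h1 : d ∈ IntermediateField.adjoin k (uu k '' {j | 0 ≤ j}))
    (h2 : d ∈ IntermediateField.adjoin k (uu k '' {j | j < 0})) :
    ∃ c : k, d = algebraMap k (KK k) c := by
  rw [Set.image_eq_range, IntermediateField.mem_adjoin_range_iff] at h1 h2
  obtain ⟨f, g, e1⟩ := h1
  obtain ⟨f', g', e2⟩ := h2
  rw [aeval_uu, aeval_uu] at e1 e2
  by_cases hg : g = 0
  · exact ⟨0, by simp [e1, hg]⟩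
  by_cases hg' : algebraMap _ (KK k) (rename Subtype.val g' : MvPolynomial ℤ k) = 0
  · exact ⟨0, by rw [e2, hg', div_zero, map_zero]⟩
  have hgr : (rename Subtype.val g : MvPolynomial ℤ k) ≠ 0 := fun h =>
    hg (rename_injective _ Subtype.val_injective (by simpa using h))
  have hg0 : algebraMap _ (KK k) (rename Subtype.val g : MvPolynomial ℤ k) ≠ 0 := by
    simpa using hgr
  have e3 : (rename Subtype.val f : MvPolynomial ℤ k) * rename Subtype.val g' =
      rename Subtype.val f' * rename Subtype.val g := by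
    apply IsFractionRing.injective (MvPolynomial ℤ k) (KK k)
    rw [e1, div_eq_div_iff hg0 hg'] at e2
    simpa using e2
  let ψ : MvPolynomial ℤ k →ₐ[k] MvPolynomial ℤ (KK k) :=
    aeval (fun i => if 0 ≤ i then X i else C (uu k i))
  have a1 : ∀ p : MvPolynomial {j : ℤ | 0 ≤ j} k, ψ (rename Subtype.val p) =
      map (algebraMap k (KK k)) (rename Subtype.val p) := by
    intro p
    induction p using MvPolynomial.induction_on with
    | C a => simp [ψ]
    | add p q hp hq => simp only [map_add, hp, hq]
    | mul_X p j hp =>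
      simp only [map_mul, hp, rename_X, map_X]
      have : (0 : ℤ) ≤ j := j.2
      simp [ψ, this]
  have a2 : ∀ p : MvPolynomial {j : ℤ | j < 0} k, ψ (rename Subtype.val p) =
      C (algebraMap _ (KK k) (rename Subtype.val p : MvPolynomial ℤ k)) := by
    intro p
    induction p using MvPolynomial.induction_on with
    | C a => simp [ψ]; rfl
    | add p q hp hq => simp only [map_add, hp, hq]
    | mul_X p j hp =>
      simp only [map_mul, hp, rename_X]
      have : ¬ (0 : ℤ) ≤ j := not_le.mpr j.2
      simp [ψ, this, uu]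
  have e4 := congrArg ψ e3
  rw [map_mul, map_mul, a1, a1, a2, a2] at e4
  obtain ⟨μ, hμ⟩ := ne_zero_iff.mp hgr
  have e5 := congrArg (coeff μ) e4
  rw [mul_comm, coeff_C_mul, coeff_C_mul, coeff_map, coeff_map] at e5
  refine ⟨coeff μ (rename Subtype.val f) / coeff μ (rename Subtype.val g), ?_⟩
  have hμ' : algebraMap k (KK k) (coeff μ (rename Subtype.val g)) ≠ 0 := by simpa using hμ
  rw [e2, map_div₀, div_eq_div_iff hg' hμ', ← e5, mul_comm]

/-- The concrete setup. -/
noncomputable def setup : Setup k (KK k) where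
  sh := shift k
  sh_zero := shift_ext k (g := AlgHom.id k _) (fun p => by
    rw [shift_alg]; simp only [zero_add]; exact congrArg _ (rename_id_apply p))
  sh_add i j := shift_ext k (g := (shift k i).comp (shift k j)) (fun p => by
    rw [AlgHom.comp_apply, shift_alg, shift_alg, shift_alg, rename_rename]
    congr 2
    congr 1
    ext l
    simp [add_assoc])
  lt j := IntermediateField.adjoin k (uu k '' {l | l < j})
  ge j := IntermediateField.adjoin k (uu k '' {l | j ≤ l})
  lt_mono h := IntermediateField.adjoin.mono _ _ _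
    (Set.image_mono (fun l hl => lt_of_lt_of_le hl h))
  ge_anti h := IntermediateField.adjoin.mono _ _ _
    (Set.image_mono (fun l hl => le_trans h hl))
  sh_lt i j d hd := shift_mem k i _ _ (fun l hl => by
    simp only [Set.mem_ofPred_eq] at hl ⊢; omega) hd
  sh_ge i j d hd := shift_mem k i _ _ (fun l hl => by
    simp only [Set.mem_ofPred_eq] at hl ⊢; omega) hd
  inter := inter_const k
  u := uu k (-1)
  u_ge := IntermediateField.subset_adjoin _ _ ⟨-1, by simp, rfl⟩
  u_lt := IntermediateField.subset_adjoin _ _ ⟨-1, by simp, rfl⟩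
  u_not c h := by
    rw [uu, IsScalarTower.algebraMap_apply k (MvPolynomial ℤ k) (KK k)] at h
    have h1 := IsFractionRing.injective (MvPolynomial ℤ k) (KK k) h
    have h2 := congrArg (coeff (Finsupp.single (-1) 1)) h1
    rw [algebraMap_eq, coeff_C, if_neg (by
      intro h; exact one_ne_zero (Finsupp.single_eq_zero.mp h.symm))] at h2
    simp at h2

end Concrete

end Pool.Agent.H857Z.Br
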