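import Pool.Agent.H857Z.BrAbs

set_option autoImplicit false

namespace Pool.Agent.H857Z.Br

open Classical

namespace Data

variable {k R : Type*} [Field k] [Ring R] [Algebra k R] (D : Data k R)

/-- Elements of degree `n + 1` whose value is forced. -/
def Wit (P : R → Prop) (val : R → k) (n : ℕ) (f : R → k) (w : R) (v : k) : Prop :=
  (∃ s t, 1 ≤ D.deg s ∧ 1 ≤ D.deg t ∧ D.deg s + D.deg t = n + 1 ∧ w = s * t ∧ v = f s * f t) ∨
    (P w ∧ n = 0 ∧ v = val w)

variable {D} {P : R → Prop} {val : R → k} {n : ℕ} {f : R → k}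

lemma Wit.deg (hP : ∀ w, P w → D.deg w = 1) {w : R} {v : k} (h : D.Wit P val n f w v) :
    D.deg w = n + 1 := by
  rcases h with ⟨s, t, hs, ht, hN, rfl, -⟩ | ⟨h1, h2, -⟩
  · rw [D.deg_mul (D.ne_of_deg hs) (D.ne_of_deg ht), hN]
  · rw [hP w h1, h2]

lemma coef_unique {w a : R} {c c' : k} (hw : D.deg w = n + 1) (h : D.deg (a - c • w) ≤ n)
    (h' : D.deg (a - c' • w) ≤ n) : c = c' := by
  by_contra hne
  have h1 : (c - c') • w = (a - c' • w) - (a - c • w) := by
    rw [sub_smul]; abel
  have h2 := D.deg_sub _ _ _ h' h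
  rw [← h1, D.deg_smul_eq (sub_ne_zero.mpr hne), hw] at h2
  omega

lemma Good.wit_cons (hf : D.Good P val n f) (hP : ∀ w, P w → D.deg w = 1)
    (hP' : ∀ w w', P w → P w' → w ∈ D.M w' → w = w') {w w' : R} {v v' c : k}
    (h : D.Wit P val n f w v) (h' : D.Wit P val n f w' v') (hm : w ∈ D.M w')
    (hc : D.deg (w - c • w') ≤ n) : v = c * v' + f (w - c • w') := by
  have hd := h.deg hP
  have hd' := h'.deg hP
  rcases h with ⟨s, t, hs, ht, hN, rfl, rfl⟩ | ⟨h1, h2, rfl⟩
  · rcases h' with ⟨s', t', hs', ht', hN', rfl, rfl⟩ | ⟨-, h2, -⟩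
    · have hm' : s' * t' ∈ D.M (s * t) :=
        D.rigid (D.self_mem _) hm (D.ne_of_deg (by omega)) (by omega)
      exact hf.cons hs ht hs' ht' hN hN'
        ((D.M _).sub_mem (D.self_mem _) ((D.M _).smul_mem c hm')) hc (by abel)
    · omega
  · rcases h' with ⟨s', t', hs', ht', hN', rfl, rfl⟩ | ⟨h1', -, rfl⟩
    · omega
    · have e := hP' w w' h1 h1' hm
      subst e
      have : c = 1 := coef_unique hd hc (by rw [one_smul, sub_self, D.deg_zero]; omega)
      subst this
      simp [hf.zero]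

lemma Good.step (hf : D.Good P val n f) (hP : ∀ w, P w → D.deg w = 1)
    (hP' : ∀ w w', P w → P w' → w ∈ D.M w' → w = w') :
    ∃ f' : R → k, D.Good P val (n + 1) f' ∧ ∀ r, D.deg r ≤ n → f' r = f r := by
  -- a chosen pair for every class
  have hrep : ∀ N : Submodule k R, ∃ p : R × k, ∀ r, D.deg r = n + 1 → D.M r = N →
      p.1 ∈ N ∧ D.deg p.1 = n + 1 ∧ ∀ w v, D.Wit P val n f w v → w ∈ N →
        D.Wit P val n f p.1 p.2 := by
    intro N
    by_cases h1 : ∃ w v, D.Wit P val n f w v ∧ w ∈ N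
    · obtain ⟨w, v, hw, hN⟩ := h1
      exact ⟨(w, v), fun r _ _ => ⟨hN, hw.deg hP, fun _ _ _ _ => hw⟩⟩
    · by_cases h2 : ∃ r, D.deg r = n + 1 ∧ D.M r = N
      · obtain ⟨r, hr, hN⟩ := h2
        refine ⟨(r, 0), fun _ _ _ => ⟨hN ▸ D.self_mem r, hr, fun w v hw hwN => ?_⟩⟩
        exact absurd ⟨w, v, hw, hwN⟩ h1
      · exact ⟨(0, 0), fun r hr hN => absurd ⟨r, hr, hN⟩ h2⟩
  choose rep hrep using hrep
  have hclass : ∀ r a, D.deg r = n + 1 → a ∈ D.M r → D.deg a = n + 1 → D.M a = D.M r := by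
    intro r a hr ha hda
    exact le_antisymm (D.trans ha)
      (D.trans (D.rigid (D.self_mem r) ha (D.ne_of_deg (by omega)) (by omega)))
  have hcoef : ∀ r a, D.deg r = n + 1 → a ∈ D.M r →
      ∃ c : k, D.deg (a - c • (rep (D.M r)).1) ≤ n := by
    intro r a hr ha
    obtain ⟨h1, h2, -⟩ := hrep _ r hr rfl
    rw [← hclass r _ hr h1 h2] at ha
    obtain ⟨c, hc⟩ := D.top ha
    refine ⟨c, ?_⟩
    rcases hc with hc | hc
    · rw [hc, D.deg_zero]; omega
    · omega
  let f' : R → k := fun r => if h : D.deg r = n + 1 then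
      (choose (hcoef r r h (D.self_mem r))) * (rep (D.M r)).2 +
        f (r - (choose (hcoef r r h (D.self_mem r))) • (rep (D.M r)).1)
    else f r
  have hlow : ∀ r, D.deg r ≤ n → f' r = f r := by
    intro r hr
    simp only [f']
    rw [dif_neg (by omega)]
  have hform : ∀ r a (c : k), D.deg r = n + 1 → a ∈ D.M r →
      D.deg (a - c • (rep (D.M r)).1) ≤ n →
      f' a = c * (rep (D.M r)).2 + f (a - c • (rep (D.M r)).1) := by
    intro r a c hr ha hc
    obtain ⟨h1, h2, -⟩ := hrep _ r hr rfl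
    by_cases hda : D.deg a = n + 1
    · have e := hclass r a hr ha hda
      have hs := choose_spec (hcoef a a hda (D.self_mem a))
      simp only [f']
      rw [dif_pos hda]
      have : choose (hcoef a a hda (D.self_mem a)) = c := by
        apply coef_unique (w := (rep (D.M a)).1) (a := a) (by rw [e]; exact h2) hs
        rw [e]; exact hc
      rw [this, e]
    · have hda' : D.deg a ≤ n := by
        have := D.deg_le_of_mem ha
        omega
      have : c = 0 := coef_unique h2 hc (by simpa using hda')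
      subst this
      rw [hlow a hda']
      simp
  have hmem : ∀ r a (c : k), D.deg r = n + 1 → a ∈ D.M r →
      a - c • (rep (D.M r)).1 ∈ D.M r := fun r a c hr ha =>
    (D.M r).sub_mem ha ((D.M r).smul_mem c (hrep _ r hr rfl).1)
  have hwit : ∀ w v, D.Wit P val n f w v → f' w = v := by
    intro w v hw
    have hd := hw.deg hP
    obtain ⟨h1, h2, h3⟩ := hrep _ w hd rfl
    obtain ⟨c, hc⟩ := hcoef w w hd (D.self_mem w)
    rw [hform w w c hd (D.self_mem w) hc]
    refine (hf.wit_cons hP hP' hw (h3 w v hw (D.self_mem w)) ?_ hc).symm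
    rw [hclass w _ hd h1 h2]
    exact D.self_mem w
  have hsmul : ∀ (c : k) a, D.deg a ≤ n + 1 → f' (c • a) = c * f' a := by
    intro c a ha
    by_cases hda : D.deg a = n + 1
    · obtain ⟨l, hl⟩ := hcoef a a hda (D.self_mem a)
      have e : c • a - (c * l) • (rep (D.M a)).1 = c • (a - l • (rep (D.M a)).1) := by
        rw [smul_sub, smul_smul]
      rw [hform a a l hda (D.self_mem a) hl,
        hform a (c • a) (c * l) hda ((D.M a).smul_mem c (D.self_mem a))
          (by rw [e]; exact (D.deg_smul _ _).trans hl), e, hf.smul c _ hl]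
      ring
    · rw [hlow a (by omega), hlow _ ((D.deg_smul c a).trans (by omega)), hf.smul c a (by omega)]
  have hone : f' 1 = 1 := by rw [hlow 1 (by rw [D.deg_one]; omega), hf.one]
  refine ⟨f', ⟨?_, hsmul, ?_, hone, ?_⟩, hlow⟩
  · intro r hr a ha b hb
    by_cases hdr : D.deg r = n + 1
    · obtain ⟨la, hla⟩ := hcoef r a hdr ha
      obtain ⟨lb, hlb⟩ := hcoef r b hdr hb
      have e : a + b - (la + lb) • (rep (D.M r)).1 =
          (a - la • (rep (D.M r)).1) + (b - lb • (rep (D.M r)).1) := by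
        rw [add_smul]; abel
      rw [hform r a la hdr ha hla, hform r b lb hdr hb hlb,
        hform r (a + b) (la + lb) hdr ((D.M r).add_mem ha hb)
          (by rw [e]; exact D.deg_add _ _ _ hla hlb), e,
        hf.low (hmem r a la hdr ha) (hmem r b lb hdr hb) hla hlb]
      ring
    · have h1 := D.deg_le_of_mem ha
      have h2 := D.deg_le_of_mem hb
      have h3 := D.deg_le_of_mem ((D.M r).add_mem ha hb)
      rw [hlow a (by omega), hlow b (by omega), hlow _ (by omega), hf.add r (by omega) a ha b hb]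
  · intro s t hst
    by_cases hs : D.deg s = 0
    · obtain ⟨c, rfl⟩ := D.const hs
      rw [smul_mul_assoc, one_mul, hsmul c t (by omega), hsmul c 1 (by rw [D.deg_one]; omega),
        hone, mul_one]
    by_cases ht : D.deg t = 0
    · obtain ⟨c, rfl⟩ := D.const ht
      rw [mul_smul_comm, mul_one, hsmul c s (by omega), hsmul c 1 (by rw [D.deg_one]; omega),
        hone, mul_one, mul_comm]
    rw [hlow s (by omega), hlow t (by omega)]
    by_cases hN : D.deg s + D.deg t = n + 1
    · exact hwit _ _ (Or.inl ⟨s, t, by omega, by omega, hN, rfl, rfl⟩)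
    · rw [hlow _ ((D.deg_mul_le s t).trans (by omega)), hf.mul s t (by omega)]
  · intro w hw hdw
    have := hP w hw
    by_cases hn : n = 0
    · exact hwit _ _ (Or.inr ⟨hw, hn, rfl⟩)
    · rw [hlow w (by omega), hf.spec w hw (by omega)]

lemma exists_good_zero (D : Data k R) (hP : ∀ w, P w → D.deg w = 1) :
    ∃ f : R → k, D.Good P val 0 f := by
  have hinj : ∀ c c' : k, c • (1 : R) = c' • (1 : R) → c = c' := by
    intro c c' h
    by_contra hne
    have h1 : (c - c') • (1 : R) = 0 := by rw [sub_smul, h, sub_self]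
    have h2 : (1 : R) = 0 := by
      have := congrArg (fun x => (c - c')⁻¹ • x) h1
      simpa [smul_smul, inv_mul_cancel₀ (sub_ne_zero.mpr hne)] using this
    exact D.one_ne h2
  let f : R → k := fun r => if h : ∃ c : k, r = c • 1 then choose h else 0
  have hf : ∀ c : k, f (c • 1) = c := by
    intro c
    have h : ∃ c' : k, c • (1 : R) = c' • 1 := ⟨c, rfl⟩
    simp only [f]
    rw [dif_pos h]
    exact (hinj _ _ (choose_spec h)).symm
  refine ⟨f, ?_, ?_, ?_, ?_, ?_⟩
  · intro r hr a ha b hb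
    obtain ⟨ca, rfl⟩ := D.const (r := a) (by have := D.deg_le_of_mem ha; omega)
    obtain ⟨cb, rfl⟩ := D.const (r := b) (by have := D.deg_le_of_mem hb; omega)
    rw [← add_smul, hf, hf, hf]
  · intro c a ha
    obtain ⟨ca, rfl⟩ := D.const (r := a) (by omega)
    rw [smul_smul, hf, hf]
  · intro s t hst
    obtain ⟨cs, rfl⟩ := D.const (r := s) (by omega)
    obtain ⟨ct, rfl⟩ := D.const (r := t) (by omega)
    rw [smul_mul_assoc, one_mul, smul_smul, hf, hf, hf]
  · simpa using hf 1
  · intro w hw hd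
    have := hP w hw
    omega

theorem exists_brachy (D : Data k R) (P : R → Prop) (val : R → k)
    (hP : ∀ w, P w → D.deg w = 1) (hP' : ∀ w w', P w → P w' → w ∈ D.M w' → w = w') :
    ∃ F : R → k, (∀ a, F (1 + a) = 1 + F a) ∧ (∀ a b, F (a * b) = F a * F b) ∧
      (∀ (c : k) a, F (c • a) = c * F a) ∧ ∀ w, P w → F w = val w := by
  have hstep : ∀ n (f : {f : R → k // D.Good P val n f}),
      ∃ f' : {f : R → k // D.Good P val (n + 1) f}, ∀ r, D.deg r ≤ n → f'.1 r = f.1 r := by
    intro n f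
    obtain ⟨f', h1, h2⟩ := f.2.step hP hP'
    exact ⟨⟨f', h1⟩, h2⟩
  choose nxt hnxt using hstep
  obtain ⟨f0, hf0⟩ := D.exists_good_zero (val := val) hP
  let seq : ∀ n, {f : R → k // D.Good P val n f} := fun n =>
    Nat.rec (motive := fun n => {f : R → k // D.Good P val n f}) ⟨f0, hf0⟩ nxt n
  have hseq : ∀ r n, D.deg r ≤ n → (seq n).1 r = (seq (D.deg r)).1 r := by
    intro r n hn
    induction n, hn using Nat.le_induction with
    | base => rfl
    | succ n hn ih =>
      rw [← ih]
      exact hnxt n (seq n) r hn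
  refine ⟨fun r => (seq (D.deg r)).1 r, ?_, ?_, ?_, ?_⟩
  · intro a
    by_cases ha : a = 0
    · subst ha
      simp [(seq _).2.one, (seq _).2.zero]
    have h1 : D.deg (1 + a) ≤ D.deg a := D.deg_add _ _ _ (by rw [D.deg_one]; omega) le_rfl
    simp only
    rw [← hseq _ _ h1, (seq _).2.add a le_rfl 1 (D.one_mem ha) a (D.self_mem a), (seq _).2.one]
  · intro a b
    simp only
    rw [← hseq _ _ (D.deg_mul_le a b), ← hseq a (D.deg a + D.deg b) (by omega),
      ← hseq b (D.deg a + D.deg b) (by omega), (seq _).2.mul a b le_rfl]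
  · intro c a
    simp only
    rw [← hseq _ _ (D.deg_smul c a), (seq _).2.smul c a le_rfl]
  · intro w hw
    exact (seq _).2.spec w hw le_rfl

end Data

end Pool.Agent.H857Z.Br
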