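import Pool.Agent.H857Z.BrSer
import Pool.Agent.H857Z.BrStep

set_option autoImplicit false

namespace Pool.Agent.H857Z.Br

open Classical Finset

namespace Setup

variable {k K : Type*} [Field k] [Field K] [Algebra k K] (S : Setup k K)

lemma co_mul_memF {a b : S.DD} (T : IntermediateField k K) (n : ℤ)
    (h : ∀ i, co a i ≠ 0 → co b (n - i) ≠ 0 → co a i * S.sh i (co b (n - i)) ∈ T) :
    co (a * b) n ∈ T :=
  co_mul_mem T.toSubfield.toAddSubgroup.toAddSubmonoid n h

lemma co_alg (c : k) (j : ℤ) :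
    co (algebraMap k S.DD c) j = if j = 0 then algebraMap k K c else 0 := by
  rw [Algebra.algebraMap_eq_smul_one, co_smul, co_one]
  split_ifs <;> simp

/-- The ring of series of nonnegative index with coefficients in `K[0, j)`. -/
noncomputable def GG : Subalgebra k S.DD where
  carrier := {a | ∀ j, (j < 0 → co a j = 0) ∧ co a j ∈ S.ge 0 ∧ co a j ∈ S.lt j}
  mul_mem' := by
    intro a b ha hb n
    have h1 : ∀ i, co a i ≠ 0 → 0 ≤ i := fun i h => by
      by_contra hc; exact h ((ha i).1 (by omega))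
    have h2 : ∀ i, co b i ≠ 0 → 0 ≤ i := fun i h => by
      by_contra hc; exact h ((hb i).1 (by omega))
    refine ⟨fun hn => ?_, ?_, ?_⟩
    · exact co_mul_mem ⊥ n (fun i hi hi' => by
        have := h1 i hi; have := h2 _ hi'; omega)
    · exact S.co_mul_memF (S.ge 0) n (fun i hi hi' =>
        mul_mem (ha i).2.1 (S.ge_anti (by have := h1 i hi; omega) (S.sh_ge i (hb _).2.1)))
    · exact S.co_mul_memF (S.lt n) n (fun i hi hi' =>
        mul_mem (S.lt_mono (by have := h2 _ hi'; omega) (ha i).2.2)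
          (S.lt_mono (by omega) (S.sh_lt i (hb _).2.2)))
  add_mem' := by
    intro a b ha hb n
    refine ⟨fun hn => ?_, add_mem (ha n).2.1 (hb n).2.1, add_mem (ha n).2.2 (hb n).2.2⟩
    rw [co_add, (ha n).1 hn, (hb n).1 hn, add_zero]
  algebraMap_mem' := by
    intro c n
    rw [co_alg]
    split_ifs with h
    · exact ⟨fun hn => by omega, IntermediateField.algebraMap_mem _ c,
        IntermediateField.algebraMap_mem _ c⟩
    · exact ⟨fun _ => rfl, zero_mem _, zero_mem _⟩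

/-- The ring of series of nonpositive index with coefficients in `K[j, 0)`. -/
noncomputable def RR : Subalgebra k S.DD where
  carrier := {a | ∀ j, (0 < j → co a j = 0) ∧ co a j ∈ S.ge j ∧ co a j ∈ S.lt 0}
  mul_mem' := by
    intro a b ha hb n
    have h1 : ∀ i, co a i ≠ 0 → i ≤ 0 := fun i h => by
      by_contra hc; exact h ((ha i).1 (by omega))
    have h2 : ∀ i, co b i ≠ 0 → i ≤ 0 := fun i h => by
      by_contra hc; exact h ((hb i).1 (by omega))
    refine ⟨fun hn => ?_, ?_, ?_⟩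
    · exact co_mul_mem ⊥ n (fun i hi hi' => by
        have := h1 i hi; have := h2 _ hi'; omega)
    · exact S.co_mul_memF (S.ge n) n (fun i hi hi' =>
        mul_mem (S.ge_anti (by have := h2 _ hi'; omega) (ha i).2.1)
          (S.ge_anti (by omega) (S.sh_ge i (hb _).2.1)))
    · exact S.co_mul_memF (S.lt 0) n (fun i hi hi' =>
        mul_mem (ha i).2.2 (S.lt_mono (by have := h1 i hi; omega) (S.sh_lt i (hb _).2.2)))
  add_mem' := by
    intro a b ha hb n
    refine ⟨fun hn => ?_, add_mem (ha n).2.1 (hb n).2.1, add_mem (ha n).2.2 (hb n).2.2⟩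
    rw [co_add, (ha n).1 hn, (hb n).1 hn, add_zero]
  algebraMap_mem' := by
    intro c n
    rw [co_alg]
    split_ifs with h
    · exact ⟨fun hn => by omega, IntermediateField.algebraMap_mem _ c,
        IntermediateField.algebraMap_mem _ c⟩
    · exact ⟨fun _ => rfl, zero_mem _, zero_mem _⟩

variable {S}

lemma left_type {a b : S.DD} (ha : a ∈ S.GG) (hb : b ∈ S.RR) (n : ℤ) :
    co (a * b) n ∈ S.ge (min 0 n) :=
  S.co_mul_memF (S.ge _) n (fun i _ _ =>
    mul_mem (S.ge_anti (min_le_left _ _) (ha i).2.1)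
      (S.ge_anti (by omega) (S.sh_ge i (hb _).2.1)))

lemma right_type {a b : S.DD} (ha : a ∈ S.RR) (hb : b ∈ S.GG) (n : ℤ) :
    co (a * b) n ∈ S.lt (max 0 n) :=
  S.co_mul_memF (S.lt _) n (fun i _ _ =>
    mul_mem (S.lt_mono (le_max_left _ _) (ha i).2.2)
      (S.lt_mono (by omega) (S.sh_lt i (hb _).2.2)))

lemma GG_LB {a : S.DD} (ha : a ∈ S.GG) : LB a 0 := fun j hj => (ha j).1 hj

lemma exists_deg (r : S.RR) : ∃ n : ℕ, LB r.1 (-n) := by
  obtain ⟨m, hm⟩ := exists_LB r.1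
  exact ⟨(-m).toNat, hm.mono (by omega)⟩

/-- The degree. -/
noncomputable def deg (r : S.RR) : ℕ := Nat.find (exists_deg r)

lemma deg_le_iff (r : S.RR) (n : ℕ) : deg r ≤ n ↔ LB r.1 (-n) :=
  ⟨fun h => (Nat.find_spec (exists_deg r)).mono (by unfold deg at h; omega),
    fun h => Nat.find_min' _ h⟩

lemma LB_deg (r : S.RR) : LB r.1 (-(deg r : ℤ)) := (deg_le_iff r _).mp le_rfl

lemma eq_zero_of_LB {r : S.RR} (h : LB r.1 1) : r = 0 := by
  apply Subtype.ext
  apply ext_co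
  intro j
  by_cases hj : j < 1
  · exact h j hj
  · exact (r.2 j).1 (by omega)

lemma lead_ne {r : S.RR} (hr : r ≠ 0) : co r.1 (-(deg r : ℤ)) ≠ 0 := by
  intro h
  have h1 : LB r.1 (-(deg r : ℤ) + 1) := by
    intro j hj
    by_cases hj' : j = -(deg r : ℤ)
    · rw [hj', h]
    · exact LB_deg r j (by omega)
  by_cases h0 : deg r = 0
  · rw [h0] at h1
    exact hr (eq_zero_of_LB (by simpa using h1))
  · have := (deg_le_iff r (deg r - 1)).mpr (h1.mono (by omega))
    omega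

lemma deg_eq {r : S.RR} {n : ℕ} (h : LB r.1 (-n)) (h' : co r.1 (-n) ≠ 0) : deg r = n := by
  apply le_antisymm ((deg_le_iff r n).mpr h)
  by_contra hc
  exact h' (LB_deg r _ (by omega))

lemma one_GG_lt (q : ℤ) : co (1 : S.DD) q ∈ S.lt q := (S.GG.one_mem q).2.2
lemma one_GG_ge (q : ℤ) : co (1 : S.DD) q ∈ S.ge 0 := (S.GG.one_mem q).2.1

lemma inv_mem {r : S.RR} (hr : r ≠ 0) :
    ∃ w ∈ S.GG, r.1 * w = 1 ∧ w * r.1 = 1 ∧ LB w (deg r) := by
  obtain ⟨w, h1, h2, h3⟩ := exists_inv (LB_deg r) (lead_ne hr)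
  rw [neg_neg] at h3
  refine ⟨w, fun j => ⟨fun hj => h3 j (by omega), ?_, ?_⟩, h1, h2, h3⟩
  · exact lemB h2 (LB_deg r) (lead_ne hr) h3
      (fun i q hi hq => S.ge_anti (by omega) (S.sh_ge i (r.2 q).2.1)) one_GG_ge j
  · exact lemA h1 (LB_deg r) (lead_ne hr) h3
      (fun i q hi hq => S.lt_mono (by omega) (r.2 i).2.2) (fun q _ => one_GG_lt q) j

lemma unit_mem {a : S.DD} (ha : a ∈ S.GG) (h0 : co a 0 ≠ 0) : ∃ w ∈ S.GG, a * w = 1 := by
  obtain ⟨w, h1, h2, h3⟩ := exists_inv (GG_LB ha) h0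
  rw [neg_zero] at h3
  refine ⟨w, fun j => ⟨fun hj => h3 j hj, ?_, ?_⟩, h1⟩
  · exact lemB h2 (GG_LB ha) h0 h3
      (fun i q hi hq => S.ge_anti (by omega) (S.sh_ge i (ha q).2.1)) one_GG_ge j
  · exact lemA h1 (GG_LB ha) h0 h3
      (fun i q hi hq => S.lt_mono (by omega) (ha i).2.2) (fun q _ => one_GG_lt q) j

/-- The space `M r`. -/
noncomputable def MM (r : S.RR) : Submodule k S.RR where
  carrier := {v | ∃ g ∈ S.GG, v.1 = r.1 * g}
  add_mem' := by
    rintro a b ⟨g, hg, e⟩ ⟨g', hg', e'⟩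
    exact ⟨g + g', add_mem hg hg', by rw [mul_add, ← e, ← e']; rfl⟩
  zero_mem' := ⟨0, zero_mem _, by simp⟩
  smul_mem' := by
    rintro c a ⟨g, hg, e⟩
    exact ⟨c • g, S.GG.smul_mem hg c, by rw [mul_smul_comm, ← e]; rfl⟩

lemma lead_mul {r s : S.RR} (hr : r ≠ 0) (hs : s ≠ 0) :
    LB (r * s).1 (-((deg r + deg s : ℕ) : ℤ)) ∧ co (r * s).1 (-((deg r + deg s : ℕ) : ℤ)) ≠ 0 := by
  have e : (-((deg r + deg s : ℕ) : ℤ)) = -(deg r : ℤ) + -(deg s : ℤ) := by push_cast; ring
  rw [e]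
  refine ⟨(LB_deg r).mul (LB_deg s), ?_⟩
  show co (r.1 * s.1) _ ≠ 0
  rw [co_mul_lead (LB_deg r) (LB_deg s)]
  exact mul_ne_zero (lead_ne hr) (sh_ne _ (lead_ne hs))

variable (S) in
/-- The model. -/
noncomputable def data : Data k S.RR where
  deg := deg
  M := MM
  one_ne := by
    intro h
    have := congrArg (fun r : S.RR => co r.1 0) h
    simp only [OneMemClass.coe_one, ZeroMemClass.coe_zero, co_one, co_zero] at this
    simp at this
  mul_ne hr hs h := (lead_mul hr hs).2 (by rw [h]; rfl)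
  deg_mul hr hs := deg_eq (lead_mul hr hs).1 (lead_mul hr hs).2
  deg_add r s n hr hs := by
    rw [deg_le_iff] at hr hs ⊢
    intro j hj
    show co (r.1 + s.1) j = 0
    rw [co_add, hr j hj, hs j hj, add_zero]
  deg_smul c r := by
    rw [deg_le_iff]
    intro j hj
    show co (c • r.1) j = 0
    rw [co_smul, LB_deg r j hj, mul_zero]
  deg_zero := by
    apply Nat.eq_zero_of_le_zero
    rw [deg_le_iff]
    intro j _
    rfl
  const {r} hr := by
    obtain ⟨c, hc⟩ := S.inter (r.2 0).2.1 (r.2 0).2.2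
    refine ⟨c, Subtype.ext (ext_co fun j => ?_)⟩
    show _ = co (c • (1 : S.DD)) j
    rw [co_smul, co_one]
    split_ifs with h
    · rw [h, hc, mul_one]
    · rw [mul_zero]
      rcases lt_or_gt_of_ne h with h | h
      · exact LB_deg r j (by omega)
      · exact (r.2 j).1 h
  one_mem hr := by
    obtain ⟨w, hw, h1, -⟩ := inv_mem hr
    exact ⟨w, hw, h1.symm⟩
  self_mem r := ⟨1, one_mem _, by simp⟩
  top {r v} := by
    rintro ⟨g, hg, e⟩
    obtain ⟨c, hc⟩ := S.inter (hg 0).2.1 (hg 0).2.2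
    have h1 : LB (g - c • (1 : S.DD)) 1 := by
      intro j hj
      rw [co_sub, co_smul, co_one]
      split_ifs with h
      · rw [h, hc, mul_one, sub_self]
      · rw [(hg j).1 (by omega), mul_zero, sub_self]
    have h2 : LB (v - c • r).1 (-(deg r : ℤ) + 1) := by
      have : (v - c • r).1 = r.1 * (g - c • (1 : S.DD)) := by
        rw [mul_sub, mul_smul_comm, mul_one, ← e]; rfl
      rw [this]
      exact (LB_deg r).mul h1
    refine ⟨c, ?_⟩
    by_cases h0 : deg r = 0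
    · rw [h0] at h2
      exact Or.inl (eq_zero_of_LB (by simpa using h2))
    · have := (deg_le_iff _ (deg r - 1)).mpr (h2.mono (by omega))
      exact Or.inr (by omega)
  trans := by
    rintro r v ⟨g, hg, e⟩ u ⟨g', hg', e'⟩
    exact ⟨g * g', mul_mem hg hg', by rw [e', e, mul_assoc]⟩
  rigid := by
    rintro r v y ⟨g₁, hg₁, e₁⟩ ⟨g₂, hg₂, e₂⟩ hy hd
    obtain ⟨w, hw, h1, h2, h3⟩ := inv_mem hy
    have hr : r ≠ 0 := by
      rintro rfl
      exact hy (Subtype.ext (by rw [e₂]; simp))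
    obtain ⟨w', -, -, h2', -⟩ := inv_mem hr
    have hg₂0 : g₂ ≠ 0 := by
      rintro rfl
      exact hy (Subtype.ext (by rw [e₂]; simp))
    have e3 : y.1 * (w * v.1) = v.1 := by rw [← mul_assoc, h1, one_mul]
    have e4 : g₂ * (w * v.1) = g₁ := by
      have : r.1 * (g₂ * (w * v.1)) = r.1 * g₁ := by rw [← mul_assoc, ← e₂, e3, e₁]
      have := congrArg (fun x => w' * x) this
      simpa only [← mul_assoc, h2', one_mul] using this
    have hL : LB (w * v.1) 0 := (h3.mul (LB_deg v)).mono (by omega)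
    obtain ⟨m, hm, hm'⟩ := exists_lead hg₂0
    refine ⟨w * v.1, fun j => ⟨hL j, ?_, ?_⟩, e3.symm⟩
    · by_cases hj : j < 0
      · rw [hL j hj]; exact zero_mem _
      · exact S.ge_anti (by omega) (left_type hw v.2 j)
    · exact lemA e4 hm hm' hL (fun i q _ hq => S.lt_mono (by omega) (hg₂ i).2.2)
        (fun q _ => (hg₁ q).2.2) j
  mul_mem := by
    rintro s t h ⟨g, hg, e⟩
    exact ⟨g, hg, by
      show s.1 * h.1 = s.1 * t.1 * g
      rw [e, mul_assoc]⟩
  split := by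
    rintro s t v hs ht ⟨g, hg, e⟩
    obtain ⟨w, hw, h1, h2, -⟩ := inv_mem hs
    obtain ⟨w', hw', h1', -, -⟩ := inv_mem ht
    have e1 : w * v.1 = t.1 * g := by
      rw [e]
      show w * (s.1 * t.1 * g) = _
      rw [← mul_assoc, ← mul_assoc, h2, one_mul]
    obtain ⟨m, hm⟩ := exists_LB (w * v.1)
    let h : S.DD := S.mk' (fun j => if j ≤ 0 then co (w * v.1) j else 0) m (fun j hj => by
      rw [hm j hj, ite_self])
    have hL := left_type hw v.2
    have hR := right_type t.2 hg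
    rw [← e1] at hR
    have hh : h ∈ S.RR := by
      intro j
      simp only [h, co_mk']
      split_ifs with hj
      · exact ⟨fun _ => by omega, S.ge_anti (by omega) (hL j), S.lt_mono (by omega) (hR j)⟩
      · exact ⟨fun _ => rfl, zero_mem _, zero_mem _⟩
    have hγ : w * v.1 - h ∈ S.GG := by
      intro j
      simp only [h, co_sub, co_mk']
      split_ifs with hj
      · rw [sub_self]; exact ⟨fun _ => rfl, zero_mem _, zero_mem _⟩
      · rw [sub_zero]
        exact ⟨fun _ => by omega, S.ge_anti (by omega) (hL j), S.lt_mono (by omega) (hR j)⟩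
    refine ⟨⟨h, hh⟩, ⟨g - w' * (w * v.1 - h), sub_mem hg (mul_mem hw' hγ), ?_⟩,
      v - s * ⟨h, hh⟩, ⟨w * v.1 - h, hγ, ?_⟩, by abel⟩
    · rw [mul_sub, ← mul_assoc, h1', one_mul, ← e1]
      simp
    · rw [mul_sub, ← mul_assoc, h1, one_mul]
      rfl
  link := by
    rintro u w w₁ c c' h h' hu ⟨g, hg, e⟩ ⟨g₁, hg₁, e₁⟩ e2 hc hh' ⟨γ, hγ, e3⟩ hd
    obtain ⟨iu, -, -, hiu, -⟩ := inv_mem hu
    obtain ⟨ic, hic, hc1, hc2, -⟩ := inv_mem hc
    obtain ⟨ih, -, -, hih, hihL⟩ := inv_mem hh'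
    have e2' : u.1 * c'.1 = w.1 * c.1 + w₁.1 := congrArg Subtype.val e2
    have e4 : c'.1 = (g + g₁ * ic) * c.1 := by
      rw [e, e₁, mul_assoc, ← mul_add] at e2'
      have := congrArg (fun x => iu * x) e2'
      simp only [← mul_assoc, hiu, one_mul] at this
      rw [this, add_mul, mul_assoc, hc2, mul_one]
    have hδ : g + g₁ * ic ∈ S.GG := add_mem hg (mul_mem hg₁ hic)
    have hγL : LB γ 1 := by
      have : γ = ih * h.1 := by rw [e3, ← mul_assoc, hih, one_mul]
      rw [this]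
      exact (hihL.mul (LB_deg h)).mono (by omega)
    have hε : 1 + γ * (g + g₁ * ic) ∈ S.GG := add_mem (one_mem _) (mul_mem hγ hδ)
    obtain ⟨ε, hε', hε1⟩ := unit_mem hε (by
      rw [co_add, co_one, if_pos rfl, (hγL.mul (GG_LB hδ)) 0 (by omega), add_zero]
      exact one_ne_zero)
    refine ⟨ic * ε, mul_mem hic hε', ?_⟩
    show h'.1 = (h'.1 * c.1 + h.1 * c'.1) * (ic * ε)
    have : h'.1 * c.1 + h.1 * c'.1 = h'.1 * (1 + γ * (g + g₁ * ic)) * c.1 := by
      rw [e4, e3]; noncomm_ring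
    rw [this, mul_assoc, ← mul_assoc c.1, hc1, one_mul, mul_assoc, hε1, mul_one]

variable (S) in
/-- The degree one element with coefficient `d`. -/
noncomputable def lin (d : K) (h1 : d ∈ S.ge (-1)) (h2 : d ∈ S.lt 0) : S.RR :=
  ⟨S.mk' (fun j => if j = -1 then d else 0) (-1) (fun j hj => if_neg (by omega)), fun j => by
    rw [co_mk']
    split_ifs with h
    · exact ⟨fun _ => by omega, h ▸ h1, h2⟩
    · exact ⟨fun _ => rfl, zero_mem _, zero_mem _⟩⟩

lemma co_lin (d : K) (h1 : d ∈ S.ge (-1)) (h2 : d ∈ S.lt 0) (j : ℤ) :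
    co (S.lin d h1 h2).1 j = if j = -1 then d else 0 := by
  simp only [lin, co_mk']

lemma deg_lin {d : K} (h1 : d ∈ S.ge (-1)) (h2 : d ∈ S.lt 0) (hd : d ≠ 0) :
    deg (S.lin d h1 h2) = 1 :=
  deg_eq (fun j hj => by rw [co_lin, if_neg (by omega)]) (by rw [co_lin, if_pos (by simp)]; exact hd)

lemma lin_mem {d d' : K} {h1 : d ∈ S.ge (-1)} {h2 : d ∈ S.lt 0} {h1' : d' ∈ S.ge (-1)}
    {h2' : d' ∈ S.lt 0} (hd' : d' ≠ 0) (h : S.lin d h1 h2 ∈ MM (S.lin d' h1' h2')) :
    ∃ c : k, d = algebraMap k K c * d' := by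
  obtain ⟨c, hc⟩ := S.data.top h
  refine ⟨c, ?_⟩
  have h3 : co (S.lin d h1 h2 - c • S.lin d' h1' h2').1 (-1) = 0 := by
    rcases hc with hc | hc
    · rw [hc]; rfl
    · have h4 : S.data.deg (S.lin d' h1' h2') = 1 := deg_lin h1' h2' hd'
      rw [h4] at hc
      exact (deg_le_iff _ 0).mp (Nat.lt_succ_iff.mp hc) _ (by simp)
  have h5 : co ((S.lin d h1 h2).1 - c • (S.lin d' h1' h2').1) (-1) = 0 := h3
  rw [co_sub, co_smul, co_lin, co_lin, if_pos rfl, if_pos rfl] at h5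
  exact sub_eq_zero.mp h5

variable (S) in
theorem exists_exotic : ∃ (F : S.RR → k) (x y : S.RR), (∀ a, F (1 + a) = 1 + F a) ∧
    (∀ a b, F (a * b) = F a * F b) ∧ (∀ (c : k) a, F (c • a) = c * F a) ∧
    F x = 0 ∧ F y = 0 ∧ F (x + y) = 1 := by
  have hu0 : S.u ≠ 0 := fun h => S.u_not 0 (by simpa using h)
  have hu1 : 1 + S.u ≠ 0 := fun h => S.u_not (-1) (by
    rw [map_neg, map_one]; linear_combination h)
  let x := S.lin 1 (one_mem _) (one_mem _)
  let y := S.lin S.u S.u_ge S.u_lt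
  let z := S.lin (1 + S.u) (add_mem (one_mem _) S.u_ge) (add_mem (one_mem _) S.u_lt)
  have hz : x + y = z := by
    apply Subtype.ext
    apply ext_co
    intro j
    show co (x.1 + y.1) j = _
    simp only [x, y, z, co_add, co_lin]
    split_ifs <;> simp
  have n1 : ∀ c : k, (1 : K) ≠ algebraMap k K c * S.u := fun c h => S.u_not c⁻¹ (by
    rw [map_inv₀]; exact (eq_inv_of_mul_eq_one_right h.symm))
  have n2 : ∀ c : k, (1 : K) ≠ algebraMap k K c * (1 + S.u) := fun c h => S.u_not (c⁻¹ - 1) (by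
    rw [map_sub, map_inv₀, map_one, ← eq_inv_of_mul_eq_one_right h.symm]; ring)
  have n3 : ∀ c : k, S.u ≠ algebraMap k K c * 1 := fun c h => S.u_not c (by simpa using h)
  have n4 : ∀ c : k, 1 + S.u ≠ algebraMap k K c * 1 := fun c h => S.u_not (c - 1) (by
    rw [map_sub, map_one]; linear_combination h)
  have n5 : ∀ c : k, 1 + S.u ≠ algebraMap k K c * S.u := fun c h => n1 (c - 1) (by
    rw [map_sub, map_one]; linear_combination h)
  have n6 : ∀ c : k, S.u ≠ algebraMap k K c * (1 + S.u) := fun c h => n2 (1 - c) (by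
    rw [map_sub, map_one]; linear_combination (-1 : K) * h)
  have hxz : x ≠ z := fun h => by
    obtain ⟨c, hc⟩ := lin_mem hu1 (show x ∈ MM z from h ▸ S.data.self_mem x)
    exact n2 c hc
  have hyz : y ≠ z := fun h => by
    obtain ⟨c, hc⟩ := lin_mem hu1 (show y ∈ MM z from h ▸ S.data.self_mem y)
    exact n6 c hc
  obtain ⟨F, f1, f2, f3, f4⟩ := S.data.exists_brachy (fun w => w = x ∨ w = y ∨ w = z)
    (fun w => if w = z then 1 else 0)
    (by
      rintro w (rfl | rfl | rfl)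
      · exact deg_lin _ _ one_ne_zero
      · exact deg_lin _ _ hu0
      · exact deg_lin _ _ hu1)
    (by
      rintro w w' (rfl | rfl | rfl) (rfl | rfl | rfl) h
      · rfl
      · obtain ⟨c, hc⟩ := lin_mem hu0 h; exact absurd hc (n1 c)
      · obtain ⟨c, hc⟩ := lin_mem hu1 h; exact absurd hc (n2 c)
      · obtain ⟨c, hc⟩ := lin_mem one_ne_zero h; exact absurd hc (n3 c)
      · rfl
      · obtain ⟨c, hc⟩ := lin_mem hu1 h; exact absurd hc (n6 c)
      · obtain ⟨c, hc⟩ := lin_mem one_ne_zero h; exact absurd hc (n4 c)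
      · obtain ⟨c, hc⟩ := lin_mem hu0 h; exact absurd hc (n5 c)
      · rfl)
  refine ⟨F, x, y, f1, f2, f3, ?_, ?_, ?_⟩
  · rw [f4 x (Or.inl rfl), if_neg hxz]
  · rw [f4 y (Or.inr (Or.inl rfl)), if_neg hyz]
  · rw [hz, f4 z (Or.inr (Or.inr rfl)), if_pos rfl]

end Setup

theorem exists_free (k : Type*) [Field k] : ∃ f : FreeAlgebra k (Fin 2) → k,
    (∀ a, f (1 + a) = 1 + f a) ∧ (∀ a b, f (a * b) = f a * f b) ∧
    f (FreeAlgebra.ι k 0) = 0 ∧ f (FreeAlgebra.ι k 1) = 0 ∧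
    f (FreeAlgebra.ι k 0 + FreeAlgebra.ι k 1) = 1 := by
  obtain ⟨F, x, y, f1, f2, -, hx, hy, hz⟩ := (setup k).exists_exotic
  let φ := FreeAlgebra.lift k (![x, y] : Fin 2 → (setup k).RR)
  refine ⟨fun a => F (φ a), fun a => ?_, fun a b => ?_, ?_, ?_, ?_⟩
  · simp only [map_add, map_one, f1]
  · simp only [map_mul, f2]
  · simpa [φ] using hx
  · simpa [φ] using hy
  · simpa [φ] using hz

end Pool.Agent.H857Z.Br
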