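import Pool.Agent.H857Z.BrField

set_option autoImplicit false

namespace Pool.Agent.H857Z.Br

open Classical Finset

/-- Laurent series of linear operators. -/
def HH (k K : Type*) [Field k] [Field K] [Algebra k K] := HahnSeries ℤ (Module.End k K)

section HH

variable {k K : Type*} [Field k] [Field K] [Algebra k K]

noncomputable instance : Ring (HH k K) := inferInstanceAs (Ring (HahnSeries ℤ (Module.End k K)))

noncomputable instance : Algebra k (HH k K) :=
  inferInstanceAs (Algebra k (HahnSeries ℤ (Module.End k K)))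

/-- The underlying series. -/
def HH.ser (w : HH k K) : HahnSeries ℤ (Module.End k K) := w

lemma HH.ser_mul (a b : HH k K) : (a * b).ser = a.ser * b.ser := rfl
lemma HH.ser_add (a b : HH k K) : (a + b).ser = a.ser + b.ser := rfl
lemma HH.ser_alg (c : k) : (algebraMap k (HH k K) c).ser = algebraMap k _ c := rfl

end HH

namespace Setup

variable {k K : Type*} [Field k] [Field K] [Algebra k K] (S : Setup k K)

/-- Twisted Laurent series over `K`, realised inside Laurent series of linear operators. -/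
noncomputable def DD : Subalgebra k (HH k K) where
  carrier := {w | ∀ j e, w.ser.coeff j e = w.ser.coeff j 1 * S.sh j e}
  mul_mem' := by
    intro a b ha hb n e
    rw [HH.ser_mul, HahnSeries.coeff_mul, LinearMap.sum_apply, LinearMap.sum_apply, Finset.sum_mul]
    apply Finset.sum_congr rfl
    intro ij hij
    rw [Finset.mem_antidiagonal] at hij
    rw [Module.End.mul_apply, Module.End.mul_apply, ha, hb ij.2 e, ha ij.1 (b.ser.coeff ij.2 1),
      map_mul, ← hij.2.2, S.sh_add, mul_assoc]
  add_mem' := by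
    intro a b ha hb n e
    rw [HH.ser_add, HahnSeries.coeff_add, LinearMap.add_apply, LinearMap.add_apply, ha n e, hb n e,
      add_mul]
  algebraMap_mem' := by
    intro c n e
    rw [HH.ser_alg, HahnSeries.algebraMap_apply, HahnSeries.C_apply, HahnSeries.coeff_single]
    split_ifs with h
    · subst h
      simp [S.sh_zero, Algebra.smul_def]
    · simp

variable {S}

/-- The coefficient of index `j`. -/
noncomputable def co (w : S.DD) (j : ℤ) : K := w.1.ser.coeff j 1

lemma coeff_eq (w : S.DD) (j : ℤ) (e : K) : w.1.ser.coeff j e = co w j * S.sh j e := w.2 j e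

lemma ext_co {a b : S.DD} (h : ∀ j, co a j = co b j) : a = b := by
  apply Subtype.ext
  have : a.1.ser = b.1.ser := by
    ext j e
    rw [coeff_eq, coeff_eq, h]
  exact this

@[simp] lemma co_add (a b : S.DD) (j : ℤ) : co (a + b) j = co a j + co b j := rfl
@[simp] lemma co_zero (j : ℤ) : co (0 : S.DD) j = 0 := rfl
@[simp] lemma co_neg (a : S.DD) (j : ℤ) : co (-a) j = - co a j := rfl
@[simp] lemma co_sub (a b : S.DD) (j : ℤ) : co (a - b) j = co a j - co b j := by
  rw [sub_eq_add_neg, co_add, co_neg, sub_eq_add_neg]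
lemma co_smul (c : k) (a : S.DD) (j : ℤ) : co (c • a) j = algebraMap k K c * co a j := by
  rw [← Algebra.smul_def]; rfl
lemma co_one (j : ℤ) : co (1 : S.DD) j = if j = 0 then 1 else 0 := by
  show (1 : HahnSeries ℤ (Module.End k K)).coeff j 1 = _
  rw [HahnSeries.coeff_one]
  split_ifs <;> simp

/-- All coefficients of index below `m` vanish. -/
def LB (a : S.DD) (m : ℤ) : Prop := ∀ j < m, co a j = 0

lemma LB.mono {a : S.DD} {m p : ℤ} (h : LB a m) (hp : p ≤ m) : LB a p :=
  fun j hj => h j (lt_of_lt_of_le hj hp)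

lemma exists_LB (a : S.DD) : ∃ m, LB a m := by
  refine ⟨a.1.ser.order, fun j hj => ?_⟩
  rw [co, HahnSeries.coeff_eq_zero_of_lt_order hj]
  rfl

lemma exists_lead {a : S.DD} (ha : a ≠ 0) : ∃ m, LB a m ∧ co a m ≠ 0 := by
  obtain ⟨m, hm⟩ := exists_LB a
  have h1 : ∃ j, co a j ≠ 0 := by
    by_contra h
    push Not at h
    exact ha (ext_co (by simpa using h))
  obtain ⟨l, hl, hl'⟩ := Int.exists_least_of_bdd (P := fun j => co a j ≠ 0)
    ⟨m, fun z hz => by by_contra h; exact hz (hm z (by omega))⟩ h1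
  exact ⟨l, fun j hj => by by_contra h; have := hl' j h; omega, hl⟩

lemma co_mul {a b : S.DD} {m p : ℤ} (ha : LB a m) (hb : LB b p) (n : ℤ) :
    co (a * b) n = ∑ i ∈ Icc m (n - p), co a i * S.sh i (co b (n - i)) := by
  show (a.1.ser * b.1.ser).coeff n 1 = _
  rw [HahnSeries.coeff_mul, LinearMap.sum_apply]
  have h1 : ∀ ij ∈ Finset.antidiagonal a.1.ser.isPWO_support b.1.ser.isPWO_support n,
      (a.1.ser.coeff ij.1 * b.1.ser.coeff ij.2) 1 = co a ij.1 * S.sh ij.1 (co b (n - ij.1)) := by
    intro ij hij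
    rw [Finset.mem_antidiagonal] at hij
    rw [Module.End.mul_apply, coeff_eq, ← hij.2.2, add_sub_cancel_left]
    rfl
  rw [Finset.sum_congr rfl h1]
  apply Finset.sum_bij_ne_zero (fun ij _ _ => ij.1)
  · intro ij hij hne
    have h2 : co a ij.1 ≠ 0 := left_ne_zero_of_mul hne
    have h3 : co b (n - ij.1) ≠ 0 := fun h => hne (by rw [h, map_zero, mul_zero])
    rw [mem_Icc]
    constructor
    · by_contra h; exact h2 (ha _ (by omega))
    · by_contra h; exact h3 (hb _ (by omega))
  · intro ij hij _ ij' hij' _ h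
    rw [Finset.mem_antidiagonal] at hij hij'
    have := hij.2.2
    have := hij'.2.2
    ext
    · exact h
    · omega
  · intro i _ hne
    have h2 : co a i ≠ 0 := left_ne_zero_of_mul hne
    have h3 : co b (n - i) ≠ 0 := fun h => hne (by rw [h, map_zero, mul_zero])
    refine ⟨(i, n - i), ?_, hne, rfl⟩
    rw [Finset.mem_antidiagonal]
    refine ⟨fun h => h2 ?_, fun h => h3 ?_, by simp⟩
    · rw [co, h]; rfl
    · rw [co, h]; rfl
  · intro ij _ _
    rfl

lemma co_mul_mem {a b : S.DD} (T : AddSubmonoid K) (n : ℤ)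
    (h : ∀ i, co a i ≠ 0 → co b (n - i) ≠ 0 → co a i * S.sh i (co b (n - i)) ∈ T) :
    co (a * b) n ∈ T := by
  obtain ⟨m, hm⟩ := exists_LB a
  obtain ⟨p, hp⟩ := exists_LB b
  rw [co_mul hm hp]
  apply T.sum_mem
  intro i _
  by_cases h1 : co a i = 0
  · rw [h1, zero_mul]; exact T.zero_mem
  by_cases h2 : co b (n - i) = 0
  · rw [h2, map_zero, mul_zero]; exact T.zero_mem
  exact h i h1 h2

lemma LB.mul {a b : S.DD} {m p : ℤ} (ha : LB a m) (hb : LB b p) : LB (a * b) (m + p) := by
  intro j hj
  rw [co_mul ha hb, Icc_eq_empty (by omega), sum_empty]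

lemma co_mul_lead {a b : S.DD} {m p : ℤ} (ha : LB a m) (hb : LB b p) :
    co (a * b) (m + p) = co a m * S.sh m (co b p) := by
  rw [co_mul ha hb, add_sub_cancel_right, Icc_self, sum_singleton, add_sub_cancel_left]

lemma co_mul_first {a b : S.DD} {m p : ℤ} (ha : LB a m) (hb : LB b p) {j : ℤ} (hj : p ≤ j) :
    co (a * b) (m + j) = co a m * S.sh m (co b j) +
      ∑ i ∈ Ioc m (m + j - p), co a i * S.sh i (co b (m + j - i)) := by
  rw [co_mul ha hb, ← Finset.Ioc_insert_left (by omega), sum_insert (by simp),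
    add_sub_cancel_left]

lemma co_mul_last {a b : S.DD} {m p : ℤ} (ha : LB a m) (hb : LB b p) {j : ℤ} (hj : m ≤ j) :
    co (a * b) (j + p) = co a j * S.sh j (co b p) +
      ∑ i ∈ Ico m j, co a i * S.sh i (co b (j + p - i)) := by
  rw [co_mul ha hb, add_sub_cancel_right, ← Finset.Ico_insert_right hj, sum_insert (by simp),
    add_sub_cancel_left]

variable (S) in
/-- The series with prescribed coefficients. -/
noncomputable def mk' (c : ℤ → K) (m : ℤ) (h : ∀ j < m, c j = 0) : S.DD :=
  ⟨HahnSeries.ofSuppBddBelow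
    (fun j => (LinearMap.mulLeft k (c j)).comp (S.sh j).toLinearMap) ⟨m, fun j hj => by
      by_contra hc
      apply hj
      ext e
      simp [h j (by omega)]⟩, fun j e => by simp [HH.ser]⟩

@[simp] lemma co_mk' (c : ℤ → K) (m : ℤ) (h : ∀ j < m, c j = 0) (j : ℤ) :
    co (S.mk' c m h) j = c j := by
  simp [co, mk', HH.ser]

lemma sh_ne (i : ℤ) {d : K} (hd : d ≠ 0) : S.sh i d ≠ 0 := by simpa using hd

lemma sh_neg_sh (i : ℤ) (d : K) : S.sh (-i) (S.sh i d) = d := by
  rw [← S.sh_add, neg_add_cancel, S.sh_zero]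

lemma sh_sh_neg (i : ℤ) (d : K) : S.sh i (S.sh (-i) d) = d := by
  rw [← S.sh_add, add_neg_cancel, S.sh_zero]

variable (S) in
/-- The coefficients of a right inverse. -/
noncomputable def invSeq (c : ℤ → K) (m : ℤ) : ℕ → K
  | n => S.sh (-m) (((if n = 0 then 1 else 0) -
      ∑ i : Fin n, c (m + n - i) * S.sh (m + n - i) (invSeq c m i)) / c m)
decreasing_by exact i.2

lemma exists_right_inv {a : S.DD} {m : ℤ} (ha : LB a m) (hm : co a m ≠ 0) :
    ∃ w : S.DD, a * w = 1 ∧ LB w (-m) := by
  let w : S.DD := S.mk' (fun j => if -m ≤ j then S.invSeq (co a) m (j + m).toNat else 0) (-m)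
    (fun j hj => if_neg (by omega))
  have hw : LB w (-m) := fun j hj => by simp only [w, co_mk']; exact if_neg (by omega)
  have hw' : ∀ n : ℕ, co w (n - m) = S.invSeq (co a) m n := by
    intro n
    simp only [w, co_mk']
    rw [if_pos (by omega)]
    congr 1
    omega
  refine ⟨w, ext_co (fun q => ?_), hw⟩
  rw [co_one]
  by_cases hq : q < 0
  · rw [if_neg (by omega)]
    exact (ha.mul hw) q (by omega)
  obtain ⟨n, rfl⟩ : ∃ n : ℕ, q = n := ⟨q.toNat, by omega⟩
  have h1 := co_mul_first ha hw (j := n - m) (by omega)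
  rw [show m + (n - m : ℤ) = n by ring] at h1
  rw [h1, hw', invSeq, sh_sh_neg, mul_div_cancel₀ _ hm]
  have h2 : ∑ i ∈ Ioc m ((n : ℤ) - -m), co a i * S.sh i (co w (n - i)) =
      ∑ i : Fin n, co a (m + n - i) * S.sh (m + n - i) (S.invSeq (co a) m i) := by
    symm
    apply Finset.sum_bij (fun (i : Fin n) _ => m + n - (i : ℕ))
    · intro i _
      have := i.2
      rw [mem_Ioc]; omega
    · intro i _ i' _ h
      ext; omega
    · intro i hi
      rw [mem_Ioc] at hi
      exact ⟨⟨(m + n - i).toNat, by omega⟩, mem_univ _, by simp only; omega⟩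
    · intro i _
      rw [← hw']
      congr 3
      ring
  rw [h2]
  simp

lemma exists_inv {a : S.DD} {m : ℤ} (ha : LB a m) (hm : co a m ≠ 0) :
    ∃ w : S.DD, a * w = 1 ∧ w * a = 1 ∧ LB w (-m) := by
  obtain ⟨w, h1, hw⟩ := exists_right_inv ha hm
  have h2 : co w (-m) ≠ 0 := by
    intro h
    have := co_mul_lead ha hw
    rw [h1, h, map_zero, mul_zero, co_one, if_pos (by ring)] at this
    exact one_ne_zero this
  obtain ⟨w', h3, -⟩ := exists_right_inv hw h2
  have : a = w' := by rw [← mul_one a, ← h3, ← mul_assoc, h1, one_mul]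
  exact ⟨w, h1, this ▸ h3, hw⟩

lemma lemA {a w b : S.DD} {m p : ℤ} (e : a * w = b) (ha : LB a m) (hm : co a m ≠ 0)
    (hw : LB w p) (h1 : ∀ i q, m ≤ i → i + p ≤ q → co a i ∈ S.lt q)
    (h2 : ∀ q, m + p ≤ q → co b q ∈ S.lt q) (j : ℤ) : co w j ∈ S.lt j := by
  have key : ∀ n : ℕ, ∀ j, j < p + n → co w j ∈ S.lt j := by
    intro n
    induction n with
    | zero => intro j hj; rw [hw j (by omega)]; exact zero_mem _
    | succ n ih =>
      intro j hj
      by_cases hj' : j < p + n
      · exact ih j hj'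
      have h3 := co_mul_first ha hw (j := j) (by omega)
      rw [e] at h3
      have h4 : ∑ i ∈ Ioc m (m + j - p), co a i * S.sh i (co w (m + j - i)) ∈ S.lt (m + j) := by
        apply sum_mem
        intro i hi
        rw [mem_Ioc] at hi
        refine mul_mem (h1 i _ (by omega) (by omega)) ?_
        have := S.sh_lt i (ih (m + j - i) (by omega))
        rwa [show i + (m + j - i) = m + j by ring] at this
      have h5 : S.sh m (co w j) ∈ S.lt (m + j) := by
        have : S.sh m (co w j) = (co b (m + j) -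
            ∑ i ∈ Ioc m (m + j - p), co a i * S.sh i (co w (m + j - i))) / co a m := by
          rw [h3, eq_div_iff hm]; ring
        rw [this]
        exact div_mem (sub_mem (h2 _ (by omega)) h4) (h1 m _ le_rfl (by omega))
      have := S.sh_lt (-m) h5
      rwa [sh_neg_sh, show -m + (m + j) = j by ring] at this
  exact key (j - p + 1).toNat j (by omega)

lemma lemB {a w b : S.DD} {m p : ℤ} (e : w * a = b) (ha : LB a m) (hm : co a m ≠ 0)
    (hw : LB w p) (h1 : ∀ i q, p ≤ i → m ≤ q → S.sh i (co a q) ∈ S.ge 0)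
    (h2 : ∀ q, co b q ∈ S.ge 0) (j : ℤ) : co w j ∈ S.ge 0 := by
  have key : ∀ n : ℕ, ∀ j, j < p + n → co w j ∈ S.ge 0 := by
    intro n
    induction n with
    | zero => intro j hj; rw [hw j (by omega)]; exact zero_mem _
    | succ n ih =>
      intro j hj
      by_cases hj' : j < p + n
      · exact ih j hj'
      have h3 := co_mul_last hw ha (j := j) (by omega)
      rw [e] at h3
      have h4 : ∑ i ∈ Ico p j, co w i * S.sh i (co a (j + m - i)) ∈ S.ge 0 := by
        apply sum_mem
        intro i hi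
        rw [mem_Ico] at hi
        exact mul_mem (ih i (by omega)) (h1 i _ (by omega) (by omega))
      have : co w j = (co b (j + m) -
          ∑ i ∈ Ico p j, co w i * S.sh i (co a (j + m - i))) / S.sh j (co a m) := by
        rw [h3, eq_div_iff (sh_ne j hm)]; ring
      rw [this]
      exact div_mem (sub_mem (h2 _) h4) (h1 j m (by omega) le_rfl)
  exact key (j - p + 1).toNat j (by omega)

end Setup

end Pool.Agent.H857Z.Br
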